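import Pool.Agent.Gen.F5.X123D2Cm6.S000

set_option autoImplicit false
set_option maxRecDepth 100000

namespace Pool.Agent.Gen.F5.X123D2Cm6

open Pool.Agent.Helper72.F5

def n0 : Cl (O (nat_lit 6)) (R (nat_lit 10449))
    (p (nat_lit 0x20000c) (nat_lit 0) (p (nat_lit 0x111) (nat_lit 1) (p (nat_lit 0xd1) (nat_lit 1) (p (nat_lit 0xc9) (nat_lit 0) (p (nat_lit 0x119) (nat_lit 1) (p (nat_lit 0xc1) (nat_lit 0) (p (nat_lit 0x81) (nat_lit 1) (p (nat_lit 0x41) (nat_lit 1) (p (nat_lit 0x10a0b098a889a) (nat_lit 0) (p (nat_lit 0x898a890a081a) (nat_lit 0) (p (nat_lit 0x1090a0888079a) (nat_lit 0) (p (nat_lit 0x88898807871a) (nat_lit 0) (p (nat_lit 0x8000080000000080788868a) (nat_lit 0) (p (nat_lit 0x8000080000000078706860a) (nat_lit 0) (p (nat_lit 0x10806878582) (nat_lit 0) (p (nat_lit 0x8786070502) (nat_lit 0) (p (nat_lit 0x10705850482) (nat_lit 0) (p (nat_lit 0x8685048402) (nat_lit 0) (p (nat_lit 0x160004)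 (nat_lit 0) (p (nat_lit 0x60592) (nat_lit 0) (p (nat_lit 0x48512) (nat_lit 0) (p (nat_lit 0x50392) (nat_lit 0) (p (nat_lit 0x38312) (nat_lit 0) (p (nat_lit 0x40212) (nat_lit 0) (p (nat_lit 0x28192) (nat_lit 0) (p (nat_lit 0x30092) (nat_lit 0) (p (nat_lit 0x18012) (nat_lit 0) pn))))))))))))))))))))))))))) :=
  Cl.node (nat_lit 0x200014) (nat_lit 2) (by decide +kernel) (ClAll.succ (ClAll.succ ClAll.zero s42) s43)

def n1 : Cl (O (nat_lit 6)) (R (nat_lit 10449))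
    (p (nat_lit 0x109) (nat_lit 1) (p (nat_lit 0xc9) (nat_lit 1) (p (nat_lit 0xc1) (nat_lit 0) (p (nat_lit 0x119) (nat_lit 1) (p (nat_lit 0xd1) (nat_lit 0) (p (nat_lit 0x89) (nat_lit 0) (p (nat_lit 0x41) (nat_lit 0) (p (nat_lit 0x10a0b098a889a) (nat_lit 0) (p (nat_lit 0x898a890a081a) (nat_lit 0) (p (nat_lit 0x1090a0888079a) (nat_lit 0) (p (nat_lit 0x88898807871a) (nat_lit 0) (p (nat_lit 0x8000080000000080788868a) (nat_lit 0) (p (nat_lit 0x8000080000000078706860a) (nat_lit 0) (p (nat_lit 0x10806878582) (nat_lit 0) (p (nat_lit 0x8786070502) (nat_lit 0) (p (nat_lit 0x10705850482) (nat_lit 0) (p (nat_lit 0x8685048402) (nat_lit 0) (p (nat_lit 0x160004) (nat_lit 0) (p (nat_lit 0x60592) (nat_lit 0) (p (nat_lit 0x48512) (nat_lit 0) (p (nat_lit 0x50392) (nat_lit 0) (p (nat_lit 0x38312) (nat_lit 0) (p (nat_lit 0x40212) (nat_lit 0) (p (nat_lit 0x28192) (nat_lit 0) (p (nat_lit 0x30092) (nat_lit 0)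 (p (nat_lit 0x18012) (nat_lit 0) pn)))))))))))))))))))))))))) :=
  Cl.node (nat_lit 0x20000c) (nat_lit 2) (by decide +kernel) (ClAll.succ (ClAll.succ ClAll.zero s5) s6)

def n2 : Cl (O (nat_lit 6)) (R (nat_lit 10449))
    (p (nat_lit 0x109) (nat_lit 1) (p (nat_lit 0x81) (nat_lit 0) (p (nat_lit 0xc1) (nat_lit 1) (p (nat_lit 0x119) (nat_lit 1) (p (nat_lit 0xd1) (nat_lit 0) (p (nat_lit 0x89) (nat_lit 0) (p (nat_lit 0x41) (nat_lit 0) (p (nat_lit 0x10a0b098a889a) (nat_lit 0) (p (nat_lit 0x898a890a081a) (nat_lit 0) (p (nat_lit 0x1090a0888079a) (nat_lit 0) (p (nat_lit 0x88898807871a) (nat_lit 0) (p (nat_lit 0x8000080000000080788868a) (nat_lit 0) (p (nat_lit 0x8000080000000078706860a) (nat_lit 0) (p (nat_lit 0x10806878582) (nat_lit 0) (p (nat_lit 0x8786070502) (nat_lit 0) (p (nat_lit 0x10705850482) (nat_lit 0) (p (nat_lit 0x8685048402) (nat_lit 0) (p (nat_lit 0x160004) (nat_lit 0) (p (nat_lit 0x60592)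 (nat_lit 0) (p (nat_lit 0x48512) (nat_lit 0) (p (nat_lit 0x50392) (nat_lit 0) (p (nat_lit 0x38312) (nat_lit 0) (p (nat_lit 0x40212) (nat_lit 0) (p (nat_lit 0x28192) (nat_lit 0) (p (nat_lit 0x30092) (nat_lit 0) (p (nat_lit 0x18012) (nat_lit 0) pn)))))))))))))))))))))))))) :=
  Cl.node (nat_lit 0x20000c) (nat_lit 2) (by decide +kernel) (ClAll.succ (ClAll.succ ClAll.zero s8) s9)

def n3 : Cl (O (nat_lit 6)) (R (nat_lit 10449))
    (p (nat_lit 0xc1) (nat_lit 0) (p (nat_lit 0x81) (nat_lit 1) (p (nat_lit 0x101) (nat_lit 1) (p (nat_lit 0x111) (nat_lit 0) (p (nat_lit 0xd1) (nat_lit 1) (p (nat_lit 0x89) (nat_lit 0) (p (nat_lit 0x41) (nat_lit 0) (p (nat_lit 0x10a0b098a889a) (nat_lit 0) (p (nat_lit 0x898a890a081a) (nat_lit 0) (p (nat_lit 0x1090a0888079a) (nat_lit 0) (p (nat_lit 0x88898807871a) (nat_lit 0) (p (nat_lit 0x8000080000000080788868a) (nat_lit 0) (p (nat_lit 0x8000080000000078706860a) (nat_lit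 0) (p (nat_lit 0x10806878582) (nat_lit 0) (p (nat_lit 0x8786070502) (nat_lit 0) (p (nat_lit 0x10705850482) (nat_lit 0) (p (nat_lit 0x8685048402) (nat_lit 0) (p (nat_lit 0x160004) (nat_lit 0) (p (nat_lit 0x60592) (nat_lit 0) (p (nat_lit 0x48512) (nat_lit 0) (p (nat_lit 0x50392) (nat_lit 0) (p (nat_lit 0x38312) (nat_lit 0) (p (nat_lit 0x40212) (nat_lit 0) (p (nat_lit 0x28192) (nat_lit 0) (p (nat_lit 0x30092) (nat_lit 0) (p (nat_lit 0x18012) (nat_lit 0) pn)))))))))))))))))))))))))) :=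
  Cl.node (nat_lit 0x20000c) (nat_lit 2) (by decide +kernel) (ClAll.succ (ClAll.succ ClAll.zero s14) s15)

def n4 : Cl (O (nat_lit 6)) (R (nat_lit 10449))
    (p (nat_lit 0x89) (nat_lit 1) (p (nat_lit 0xc9) (nat_lit 1) (p (nat_lit 0xc1) (nat_lit 0) (p (nat_lit 0x119) (nat_lit 1) (p (nat_lit 0xd1) (nat_lit 0) (p (nat_lit 0x81) (nat_lit 0) (p (nat_lit 0x41) (nat_lit 1) (p (nat_lit 0x10a0b098a889a) (nat_lit 0) (p (nat_lit 0x898a890a081a) (nat_lit 0) (p (nat_lit 0x1090a0888079a) (nat_lit 0) (p (nat_lit 0x88898807871a) (nat_lit 0) (p (nat_lit 0x8000080000000080788868a) (nat_lit 0) (p (nat_lit 0x8000080000000078706860a) (nat_lit 0) (p (nat_lit 0x10806878582) (nat_lit 0) (p (nat_lit 0x8786070502) (nat_lit 0) (p (nat_lit 0x10705850482) (nat_lit 0) (p (nat_lit 0x8685048402) (nat_lit 0) (p (nat_lit 0x160004) (nat_lit 0) (p (nat_lit 0x60592) (nat_lit 0) (p (nat_lit 0x48512) (nat_lit 0) (p (nat_lit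 0x50392) (nat_lit 0) (p (nat_lit 0x38312) (nat_lit 0) (p (nat_lit 0x40212) (nat_lit 0) (p (nat_lit 0x28192) (nat_lit 0) (p (nat_lit 0x30092) (nat_lit 0) (p (nat_lit 0x18012) (nat_lit 0) pn)))))))))))))))))))))))))) :=
  Cl.node (nat_lit 0x109) (nat_lit 2) (by decide +kernel) (ClAll.succ (ClAll.succ ClAll.zero s28) s29)

def n5 : Cl (O (nat_lit 6)) (R (nat_lit 10449))
    (p (nat_lit 0x89) (nat_lit 1) (p (nat_lit 0x101) (nat_lit 0) (p (nat_lit 0xc1) (nat_lit 1) (p (nat_lit 0x119) (nat_lit 1) (p (nat_lit 0xd1) (nat_lit 0) (p (nat_lit 0x81) (nat_lit 0) (p (nat_lit 0x41) (nat_lit 1) (p (nat_lit 0x10a0b098a889a) (nat_lit 0) (p (nat_lit 0x898a890a081a) (nat_lit 0) (p (nat_lit 0x1090a0888079a) (nat_lit 0) (p (nat_lit 0x88898807871a) (nat_lit 0) (p (nat_lit 0x8000080000000080788868a) (nat_lit 0) (p (nat_lit 0x8000080000000078706860a) (nat_lit 0) (p (nat_lit 0x10806878582) (nat_lit 0) (p (nat_lit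 0x8786070502) (nat_lit 0) (p (nat_lit 0x10705850482) (nat_lit 0) (p (nat_lit 0x8685048402) (nat_lit 0) (p (nat_lit 0x160004) (nat_lit 0) (p (nat_lit 0x60592) (nat_lit 0) (p (nat_lit 0x48512) (nat_lit 0) (p (nat_lit 0x50392) (nat_lit 0) (p (nat_lit 0x38312) (nat_lit 0) (p (nat_lit 0x40212) (nat_lit 0) (p (nat_lit 0x28192) (nat_lit 0) (p (nat_lit 0x30092) (nat_lit 0) (p (nat_lit 0x18012) (nat_lit 0) pn)))))))))))))))))))))))))) :=
  Cl.node (nat_lit 0x109) (nat_lit 2) (by decide +kernel) (ClAll.succ (ClAll.succ ClAll.zero s31) s32)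

def n6 : Cl (O (nat_lit 6)) (R (nat_lit 10449))
    (p (nat_lit 0x89) (nat_lit 1) (p (nat_lit 0x101) (nat_lit 1) (p (nat_lit 0xc1) (nat_lit 1) (p (nat_lit 0x119) (nat_lit 1) (p (nat_lit 0xd1) (nat_lit 0) (p (nat_lit 0x81) (nat_lit 0) (p (nat_lit 0x41) (nat_lit 1) (p (nat_lit 0x10a0b098a889a) (nat_lit 0) (p (nat_lit 0x898a890a081a) (nat_lit 0) (p (nat_lit 0x1090a0888079a) (nat_lit 0) (p (nat_lit 0x88898807871a) (nat_lit 0) (p (nat_lit 0x8000080000000080788868a) (nat_lit 0) (p (nat_lit 0x8000080000000078706860a) (nat_lit 0) (p (nat_lit 0x10806878582) (nat_lit 0) (p (nat_lit 0x8786070502) (nat_lit 0) (p (nat_lit 0x10705850482) (nat_lit 0) (p (nat_lit 0x8685048402) (nat_lit 0) (p (nat_lit 0x160004) (nat_lit 0) (p (nat_lit 0x60592) (nat_lit 0) (p (nat_lit 0x48512) (nat_lit 0) (p (nat_lit 0x50392) (nat_lit 0) (p (nat_lit 0x38312) (nat_lit 0) (p (nat_lit 0x40212) (nat_lit 0) (p (nat_lit 0x28192)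 (nat_lit 0) (p (nat_lit 0x30092) (nat_lit 0) (p (nat_lit 0x18012) (nat_lit 0) pn)))))))))))))))))))))))))) :=
  Cl.node (nat_lit 0x20000c) (nat_lit 2) (by decide +kernel) (ClAll.succ (ClAll.succ ClAll.zero s34) s35)

def n7 : Cl (O (nat_lit 6)) (R (nat_lit 10449))
    (p (nat_lit 0x111) (nat_lit 1) (p (nat_lit 0xd1) (nat_lit 1) (p (nat_lit 0xc9) (nat_lit 0) (p (nat_lit 0x119) (nat_lit 1) (p (nat_lit 0xc1) (nat_lit 0) (p (nat_lit 0x81) (nat_lit 1) (p (nat_lit 0x41) (nat_lit 1) (p (nat_lit 0x10a0b098a889a) (nat_lit 0) (p (nat_lit 0x898a890a081a) (nat_lit 0) (p (nat_lit 0x1090a0888079a) (nat_lit 0) (p (nat_lit 0x88898807871a) (nat_lit 0) (p (nat_lit 0x8000080000000080788868a) (nat_lit 0) (p (nat_lit 0x8000080000000078706860a) (nat_lit 0) (p (nat_lit 0x10806878582) (nat_lit 0) (p (nat_lit 0x8786070502) (nat_lit 0) (p (nat_lit 0x10705850482) (nat_lit 0) (p (nat_lit 0x8685048402) (nat_lit 0)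 (p (nat_lit 0x160004) (nat_lit 0) (p (nat_lit 0x60592) (nat_lit 0) (p (nat_lit 0x48512) (nat_lit 0) (p (nat_lit 0x50392) (nat_lit 0) (p (nat_lit 0x38312) (nat_lit 0) (p (nat_lit 0x40212) (nat_lit 0) (p (nat_lit 0x28192) (nat_lit 0) (p (nat_lit 0x30092) (nat_lit 0) (p (nat_lit 0x18012) (nat_lit 0) pn)))))))))))))))))))))))))) :=
  Cl.node (nat_lit 0x20000c) (nat_lit 2) (by decide +kernel) (ClAll.succ (ClAll.succ ClAll.zero n0) s44)

def n8 : Cl (O (nat_lit 6)) (R (nat_lit 10449))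
    (p (nat_lit 0xc9) (nat_lit 1) (p (nat_lit 0xc1) (nat_lit 0) (p (nat_lit 0x119) (nat_lit 1) (p (nat_lit 0xd1) (nat_lit 0) (p (nat_lit 0x89) (nat_lit 0) (p (nat_lit 0x41) (nat_lit 0) (p (nat_lit 0x10a0b098a889a) (nat_lit 0) (p (nat_lit 0x898a890a081a) (nat_lit 0) (p (nat_lit 0x1090a0888079a) (nat_lit 0) (p (nat_lit 0x88898807871a) (nat_lit 0) (p (nat_lit 0x8000080000000080788868a) (nat_lit 0) (p (nat_lit 0x8000080000000078706860a) (nat_lit 0) (p (nat_lit 0x10806878582) (nat_lit 0) (p (nat_lit 0x8786070502) (nat_lit 0) (p (nat_lit 0x10705850482) (nat_lit 0) (p (nat_lit 0x8685048402) (nat_lit 0) (p (nat_lit 0x160004) (nat_lit 0) (p (nat_lit 0x60592) (nat_lit 0) (p (nat_lit 0x48512) (nat_lit 0) (p (nat_lit 0x50392) (nat_lit 0) (p (nat_lit 0x38312) (nat_lit 0) (p (nat_lit 0x40212) (nat_lit 0) (p (nat_lit 0x28192) (nat_lit 0) (p (nat_lit 0x30092) (nat_lit 0) (p (nat_lit 0x18012) (nat_lit 0)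 pn))))))))))))))))))))))))) :=
  Cl.node (nat_lit 0x109) (nat_lit 2) (by decide +kernel) (ClAll.succ (ClAll.succ ClAll.zero s4) n1)

def n9 : Cl (O (nat_lit 6)) (R (nat_lit 10449))
    (p (nat_lit 0x81) (nat_lit 0) (p (nat_lit 0xc1) (nat_lit 1) (p (nat_lit 0x119) (nat_lit 1) (p (nat_lit 0xd1) (nat_lit 0) (p (nat_lit 0x89) (nat_lit 0) (p (nat_lit 0x41) (nat_lit 0) (p (nat_lit 0x10a0b098a889a) (nat_lit 0) (p (nat_lit 0x898a890a081a) (nat_lit 0) (p (nat_lit 0x1090a0888079a) (nat_lit 0) (p (nat_lit 0x88898807871a) (nat_lit 0) (p (nat_lit 0x8000080000000080788868a) (nat_lit 0) (p (nat_lit 0x8000080000000078706860a) (nat_lit 0) (p (nat_lit 0x10806878582) (nat_lit 0) (p (nat_lit 0x8786070502) (nat_lit 0) (p (nat_lit 0x10705850482) (nat_lit 0) (p (nat_lit 0x8685048402) (nat_lit 0) (p (nat_lit 0x160004) (nat_lit 0) (p (nat_lit 0x60592) (nat_lit 0) (p (nat_lit 0x48512) (nat_lit 0) (p (nat_lit 0x50392)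 (nat_lit 0) (p (nat_lit 0x38312) (nat_lit 0) (p (nat_lit 0x40212) (nat_lit 0) (p (nat_lit 0x28192) (nat_lit 0) (p (nat_lit 0x30092) (nat_lit 0) (p (nat_lit 0x18012) (nat_lit 0) pn))))))))))))))))))))))))) :=
  Cl.node (nat_lit 0x109) (nat_lit 2) (by decide +kernel) (ClAll.succ (ClAll.succ ClAll.zero s7) n2)

def n10 : Cl (O (nat_lit 6)) (R (nat_lit 10449))
    (p (nat_lit 0x81) (nat_lit 1) (p (nat_lit 0xc1) (nat_lit 1) (p (nat_lit 0x119) (nat_lit 1) (p (nat_lit 0xd1) (nat_lit 0) (p (nat_lit 0x89) (nat_lit 0) (p (nat_lit 0x41) (nat_lit 0) (p (nat_lit 0x10a0b098a889a) (nat_lit 0) (p (nat_lit 0x898a890a081a) (nat_lit 0) (p (nat_lit 0x1090a0888079a) (nat_lit 0) (p (nat_lit 0x88898807871a) (nat_lit 0) (p (nat_lit 0x8000080000000080788868a) (nat_lit 0) (p (nat_lit 0x8000080000000078706860a) (nat_lit 0) (p (nat_lit 0x10806878582) (nat_lit 0) (p (nat_lit 0x8786070502) (nat_lit 0) (p (nat_lit 0x10705850482)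 (nat_lit 0) (p (nat_lit 0x8685048402) (nat_lit 0) (p (nat_lit 0x160004) (nat_lit 0) (p (nat_lit 0x60592) (nat_lit 0) (p (nat_lit 0x48512) (nat_lit 0) (p (nat_lit 0x50392) (nat_lit 0) (p (nat_lit 0x38312) (nat_lit 0) (p (nat_lit 0x40212) (nat_lit 0) (p (nat_lit 0x28192) (nat_lit 0) (p (nat_lit 0x30092) (nat_lit 0) (p (nat_lit 0x18012) (nat_lit 0) pn))))))))))))))))))))))))) :=
  Cl.node (nat_lit 0x101) (nat_lit 2) (by decide +kernel) (ClAll.succ (ClAll.succ ClAll.zero s10) s11)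

def n11 : Cl (O (nat_lit 6)) (R (nat_lit 10449))
    (p (nat_lit 0x81) (nat_lit 1) (p (nat_lit 0x101) (nat_lit 1) (p (nat_lit 0x111) (nat_lit 0) (p (nat_lit 0xd1) (nat_lit 1) (p (nat_lit 0x89) (nat_lit 0) (p (nat_lit 0x41) (nat_lit 0) (p (nat_lit 0x10a0b098a889a) (nat_lit 0) (p (nat_lit 0x898a890a081a) (nat_lit 0) (p (nat_lit 0x1090a0888079a) (nat_lit 0) (p (nat_lit 0x88898807871a) (nat_lit 0) (p (nat_lit 0x8000080000000080788868a) (nat_lit 0) (p (nat_lit 0x8000080000000078706860a) (nat_lit 0) (p (nat_lit 0x10806878582) (nat_lit 0) (p (nat_lit 0x8786070502) (nat_lit 0) (p (nat_lit 0x10705850482) (nat_lit 0) (p (nat_lit 0x8685048402) (nat_lit 0) (p (nat_lit 0x160004) (nat_lit 0) (p (nat_lit 0x60592) (nat_lit 0) (p (nat_lit 0x48512) (nat_lit 0) (p (nat_lit 0x50392) (nat_lit 0) (p (nat_lit 0x38312) (nat_lit 0) (p (nat_lit 0x40212) (nat_lit 0) (p (nat_lit 0x28192) (nat_lit 0) (p (nat_lit 0x30092)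 (nat_lit 0) (p (nat_lit 0x18012) (nat_lit 0) pn))))))))))))))))))))))))) :=
  Cl.node (nat_lit 0xc1) (nat_lit 2) (by decide +kernel) (ClAll.succ (ClAll.succ ClAll.zero n3) s16)

def n12 : Cl (O (nat_lit 6)) (R (nat_lit 10449))
    (p (nat_lit 0xc9) (nat_lit 1) (p (nat_lit 0xc1) (nat_lit 0) (p (nat_lit 0x119) (nat_lit 1) (p (nat_lit 0xd1) (nat_lit 0) (p (nat_lit 0x81) (nat_lit 0) (p (nat_lit 0x41) (nat_lit 1) (p (nat_lit 0x10a0b098a889a) (nat_lit 0) (p (nat_lit 0x898a890a081a) (nat_lit 0) (p (nat_lit 0x1090a0888079a) (nat_lit 0) (p (nat_lit 0x88898807871a) (nat_lit 0) (p (nat_lit 0x8000080000000080788868a) (nat_lit 0) (p (nat_lit 0x8000080000000078706860a) (nat_lit 0) (p (nat_lit 0x10806878582) (nat_lit 0) (p (nat_lit 0x8786070502) (nat_lit 0) (p (nat_lit 0x10705850482) (nat_lit 0) (p (nat_lit 0x8685048402) (nat_lit 0) (p (nat_lit 0x160004) (nat_lit 0) (p (nat_lit 0x60592) (nat_lit 0) (p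 (nat_lit 0x48512) (nat_lit 0) (p (nat_lit 0x50392) (nat_lit 0) (p (nat_lit 0x38312) (nat_lit 0) (p (nat_lit 0x40212) (nat_lit 0) (p (nat_lit 0x28192) (nat_lit 0) (p (nat_lit 0x30092) (nat_lit 0) (p (nat_lit 0x18012) (nat_lit 0) pn))))))))))))))))))))))))) :=
  Cl.node (nat_lit 0x89) (nat_lit 2) (by decide +kernel) (ClAll.succ (ClAll.succ ClAll.zero s27) n4)

def n13 : Cl (O (nat_lit 6)) (R (nat_lit 10449))
    (p (nat_lit 0x101) (nat_lit 0) (p (nat_lit 0xc1) (nat_lit 1) (p (nat_lit 0x119) (nat_lit 1) (p (nat_lit 0xd1) (nat_lit 0) (p (nat_lit 0x81) (nat_lit 0) (p (nat_lit 0x41) (nat_lit 1) (p (nat_lit 0x10a0b098a889a) (nat_lit 0) (p (nat_lit 0x898a890a081a) (nat_lit 0) (p (nat_lit 0x1090a0888079a) (nat_lit 0) (p (nat_lit 0x88898807871a) (nat_lit 0) (p (nat_lit 0x8000080000000080788868a) (nat_lit 0) (p (nat_lit 0x8000080000000078706860a) (nat_lit 0) (p (nat_lit 0x10806878582) (nat_lit 0)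 (p (nat_lit 0x8786070502) (nat_lit 0) (p (nat_lit 0x10705850482) (nat_lit 0) (p (nat_lit 0x8685048402) (nat_lit 0) (p (nat_lit 0x160004) (nat_lit 0) (p (nat_lit 0x60592) (nat_lit 0) (p (nat_lit 0x48512) (nat_lit 0) (p (nat_lit 0x50392) (nat_lit 0) (p (nat_lit 0x38312) (nat_lit 0) (p (nat_lit 0x40212) (nat_lit 0) (p (nat_lit 0x28192) (nat_lit 0) (p (nat_lit 0x30092) (nat_lit 0) (p (nat_lit 0x18012) (nat_lit 0) pn))))))))))))))))))))))))) :=
  Cl.node (nat_lit 0x89) (nat_lit 2) (by decide +kernel) (ClAll.succ (ClAll.succ ClAll.zero s30) n5)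

def n14 : Cl (O (nat_lit 6)) (R (nat_lit 10449))
    (p (nat_lit 0x101) (nat_lit 1) (p (nat_lit 0xc1) (nat_lit 1) (p (nat_lit 0x119) (nat_lit 1) (p (nat_lit 0xd1) (nat_lit 0) (p (nat_lit 0x81) (nat_lit 0) (p (nat_lit 0x41) (nat_lit 1) (p (nat_lit 0x10a0b098a889a) (nat_lit 0) (p (nat_lit 0x898a890a081a) (nat_lit 0) (p (nat_lit 0x1090a0888079a) (nat_lit 0) (p (nat_lit 0x88898807871a) (nat_lit 0) (p (nat_lit 0x8000080000000080788868a) (nat_lit 0) (p (nat_lit 0x8000080000000078706860a) (nat_lit 0) (p (nat_lit 0x10806878582) (nat_lit 0) (p (nat_lit 0x8786070502) (nat_lit 0) (p (nat_lit 0x10705850482) (nat_lit 0) (p (nat_lit 0x8685048402) (nat_lit 0) (p (nat_lit 0x160004) (nat_lit 0) (p (nat_lit 0x60592) (nat_lit 0) (p (nat_lit 0x48512) (nat_lit 0) (p (nat_lit 0x50392) (nat_lit 0) (p (nat_lit 0x38312) (nat_lit 0) (p (nat_lit 0x40212) (nat_lit 0) (p (nat_lit 0x28192) (nat_lit 0) (p (nat_lit 0x30092)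 (nat_lit 0) (p (nat_lit 0x18012) (nat_lit 0) pn))))))))))))))))))))))))) :=
  Cl.node (nat_lit 0x89) (nat_lit 2) (by decide +kernel) (ClAll.succ (ClAll.succ ClAll.zero s33) n6)

def n15 : Cl (O (nat_lit 6)) (R (nat_lit 10449))
    (p (nat_lit 0xd1) (nat_lit 1) (p (nat_lit 0xc9) (nat_lit 0) (p (nat_lit 0x119) (nat_lit 1) (p (nat_lit 0xc1) (nat_lit 0) (p (nat_lit 0x81) (nat_lit 1) (p (nat_lit 0x41) (nat_lit 1) (p (nat_lit 0x10a0b098a889a) (nat_lit 0) (p (nat_lit 0x898a890a081a) (nat_lit 0) (p (nat_lit 0x1090a0888079a) (nat_lit 0) (p (nat_lit 0x88898807871a) (nat_lit 0) (p (nat_lit 0x8000080000000080788868a) (nat_lit 0) (p (nat_lit 0x8000080000000078706860a) (nat_lit 0) (p (nat_lit 0x10806878582) (nat_lit 0) (p (nat_lit 0x8786070502) (nat_lit 0) (p (nat_lit 0x10705850482) (nat_lit 0) (p (nat_lit 0x8685048402) (nat_lit 0) (p (nat_lit 0x160004) (nat_lit 0) (p (nat_lit 0x60592) (nat_lit 0) (p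 (nat_lit 0x48512) (nat_lit 0) (p (nat_lit 0x50392) (nat_lit 0) (p (nat_lit 0x38312) (nat_lit 0) (p (nat_lit 0x40212) (nat_lit 0) (p (nat_lit 0x28192) (nat_lit 0) (p (nat_lit 0x30092) (nat_lit 0) (p (nat_lit 0x18012) (nat_lit 0) pn))))))))))))))))))))))))) :=
  Cl.node (nat_lit 0x111) (nat_lit 2) (by decide +kernel) (ClAll.succ (ClAll.succ ClAll.zero s41) n7)

def n16 : Cl (O (nat_lit 6)) (R (nat_lit 10449))
    (p (nat_lit 0x101) (nat_lit 1) (p (nat_lit 0x119) (nat_lit 0) (p (nat_lit 0xd1) (nat_lit 0) (p (nat_lit 0x89) (nat_lit 0) (p (nat_lit 0x41) (nat_lit 0) (p (nat_lit 0x10a0b098a889a) (nat_lit 0) (p (nat_lit 0x898a890a081a) (nat_lit 0) (p (nat_lit 0x1090a0888079a) (nat_lit 0) (p (nat_lit 0x88898807871a) (nat_lit 0) (p (nat_lit 0x8000080000000080788868a) (nat_lit 0) (p (nat_lit 0x8000080000000078706860a) (nat_lit 0) (p (nat_lit 0x10806878582) (nat_lit 0) (p (nat_lit 0x8786070502) (nat_lit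 0) (p (nat_lit 0x10705850482) (nat_lit 0) (p (nat_lit 0x8685048402) (nat_lit 0) (p (nat_lit 0x160004) (nat_lit 0) (p (nat_lit 0x60592) (nat_lit 0) (p (nat_lit 0x48512) (nat_lit 0) (p (nat_lit 0x50392) (nat_lit 0) (p (nat_lit 0x38312) (nat_lit 0) (p (nat_lit 0x40212) (nat_lit 0) (p (nat_lit 0x28192) (nat_lit 0) (p (nat_lit 0x30092) (nat_lit 0) (p (nat_lit 0x18012) (nat_lit 0) pn)))))))))))))))))))))))) :=
  Cl.node (nat_lit 0x81) (nat_lit 2) (by decide +kernel) (ClAll.succ (ClAll.succ ClAll.zero s1) s2)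

def n17 : Cl (O (nat_lit 6)) (R (nat_lit 10449))
    (p (nat_lit 0xc1) (nat_lit 0) (p (nat_lit 0x119) (nat_lit 1) (p (nat_lit 0xd1) (nat_lit 0) (p (nat_lit 0x89) (nat_lit 0) (p (nat_lit 0x41) (nat_lit 0) (p (nat_lit 0x10a0b098a889a) (nat_lit 0) (p (nat_lit 0x898a890a081a) (nat_lit 0) (p (nat_lit 0x1090a0888079a) (nat_lit 0) (p (nat_lit 0x88898807871a) (nat_lit 0) (p (nat_lit 0x8000080000000080788868a) (nat_lit 0) (p (nat_lit 0x8000080000000078706860a) (nat_lit 0) (p (nat_lit 0x10806878582) (nat_lit 0) (p (nat_lit 0x8786070502) (nat_lit 0) (p (nat_lit 0x10705850482) (nat_lit 0) (p (nat_lit 0x8685048402) (nat_lit 0) (p (nat_lit 0x160004) (nat_lit 0) (p (nat_lit 0x60592) (nat_lit 0) (p (nat_lit 0x48512) (nat_lit 0) (p (nat_lit 0x50392) (nat_lit 0) (p (nat_lit 0x38312) (nat_lit 0) (p (nat_lit 0x40212) (nat_lit 0) (p (nat_lit 0x28192) (nat_lit 0) (p (nat_lit 0x30092) (nat_lit 0) (p (nat_lit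 0x18012) (nat_lit 0) pn)))))))))))))))))))))))) :=
  Cl.node (nat_lit 0xc9) (nat_lit 2) (by decide +kernel) (ClAll.succ (ClAll.succ ClAll.zero s3) n8)

def n18 : Cl (O (nat_lit 6)) (R (nat_lit 10449))
    (p (nat_lit 0xc1) (nat_lit 1) (p (nat_lit 0x119) (nat_lit 1) (p (nat_lit 0xd1) (nat_lit 0) (p (nat_lit 0x89) (nat_lit 0) (p (nat_lit 0x41) (nat_lit 0) (p (nat_lit 0x10a0b098a889a) (nat_lit 0) (p (nat_lit 0x898a890a081a) (nat_lit 0) (p (nat_lit 0x1090a0888079a) (nat_lit 0) (p (nat_lit 0x88898807871a) (nat_lit 0) (p (nat_lit 0x8000080000000080788868a) (nat_lit 0) (p (nat_lit 0x8000080000000078706860a) (nat_lit 0) (p (nat_lit 0x10806878582) (nat_lit 0) (p (nat_lit 0x8786070502) (nat_lit 0) (p (nat_lit 0x10705850482) (nat_lit 0) (p (nat_lit 0x8685048402) (nat_lit 0) (p (nat_lit 0x160004) (nat_lit 0) (p (nat_lit 0x60592) (nat_lit 0) (p (nat_lit 0x48512) (nat_lit 0) (p (nat_lit 0x50392) (nat_lit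 0) (p (nat_lit 0x38312) (nat_lit 0) (p (nat_lit 0x40212) (nat_lit 0) (p (nat_lit 0x28192) (nat_lit 0) (p (nat_lit 0x30092) (nat_lit 0) (p (nat_lit 0x18012) (nat_lit 0) pn)))))))))))))))))))))))) :=
  Cl.node (nat_lit 0x81) (nat_lit 2) (by decide +kernel) (ClAll.succ (ClAll.succ ClAll.zero n9) n10)

def n19 : Cl (O (nat_lit 6)) (R (nat_lit 10449))
    (p (nat_lit 0x101) (nat_lit 1) (p (nat_lit 0x111) (nat_lit 0) (p (nat_lit 0xd1) (nat_lit 1) (p (nat_lit 0x89) (nat_lit 0) (p (nat_lit 0x41) (nat_lit 0) (p (nat_lit 0x10a0b098a889a) (nat_lit 0) (p (nat_lit 0x898a890a081a) (nat_lit 0) (p (nat_lit 0x1090a0888079a) (nat_lit 0) (p (nat_lit 0x88898807871a) (nat_lit 0) (p (nat_lit 0x8000080000000080788868a) (nat_lit 0) (p (nat_lit 0x8000080000000078706860a) (nat_lit 0) (p (nat_lit 0x10806878582) (nat_lit 0) (p (nat_lit 0x8786070502) (nat_lit 0) (p (nat_lit 0x10705850482) (nat_lit 0) (p (nat_lit 0x8685048402)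 (nat_lit 0) (p (nat_lit 0x160004) (nat_lit 0) (p (nat_lit 0x60592) (nat_lit 0) (p (nat_lit 0x48512) (nat_lit 0) (p (nat_lit 0x50392) (nat_lit 0) (p (nat_lit 0x38312) (nat_lit 0) (p (nat_lit 0x40212) (nat_lit 0) (p (nat_lit 0x28192) (nat_lit 0) (p (nat_lit 0x30092) (nat_lit 0) (p (nat_lit 0x18012) (nat_lit 0) pn)))))))))))))))))))))))) :=
  Cl.node (nat_lit 0x81) (nat_lit 2) (by decide +kernel) (ClAll.succ (ClAll.succ ClAll.zero s13) n11)

def n20 : Cl (O (nat_lit 6)) (R (nat_lit 10449))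
    (p (nat_lit 0x101) (nat_lit 1) (p (nat_lit 0x119) (nat_lit 0) (p (nat_lit 0xd1) (nat_lit 0) (p (nat_lit 0x81) (nat_lit 0) (p (nat_lit 0x41) (nat_lit 1) (p (nat_lit 0x10a0b098a889a) (nat_lit 0) (p (nat_lit 0x898a890a081a) (nat_lit 0) (p (nat_lit 0x1090a0888079a) (nat_lit 0) (p (nat_lit 0x88898807871a) (nat_lit 0) (p (nat_lit 0x8000080000000080788868a) (nat_lit 0) (p (nat_lit 0x8000080000000078706860a) (nat_lit 0) (p (nat_lit 0x10806878582) (nat_lit 0) (p (nat_lit 0x8786070502) (nat_lit 0) (p (nat_lit 0x10705850482) (nat_lit 0) (p (nat_lit 0x8685048402) (nat_lit 0) (p (nat_lit 0x160004) (nat_lit 0) (p (nat_lit 0x60592) (nat_lit 0) (p (nat_lit 0x48512) (nat_lit 0) (p (nat_lit 0x50392) (nat_lit 0) (p (nat_lit 0x38312) (nat_lit 0) (p (nat_lit 0x40212) (nat_lit 0) (p (nat_lit 0x28192) (nat_lit 0) (p (nat_lit 0x30092) (nat_lit 0) (p (nat_lit 0x18012) (nat_lit 0) pn))))))))))))))))))))))))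 :=
  Cl.node (nat_lit 0xc1) (nat_lit 2) (by decide +kernel) (ClAll.succ (ClAll.succ ClAll.zero s24) s25)

def n21 : Cl (O (nat_lit 6)) (R (nat_lit 10449))
    (p (nat_lit 0xc1) (nat_lit 0) (p (nat_lit 0x119) (nat_lit 1) (p (nat_lit 0xd1) (nat_lit 0) (p (nat_lit 0x81) (nat_lit 0) (p (nat_lit 0x41) (nat_lit 1) (p (nat_lit 0x10a0b098a889a) (nat_lit 0) (p (nat_lit 0x898a890a081a) (nat_lit 0) (p (nat_lit 0x1090a0888079a) (nat_lit 0) (p (nat_lit 0x88898807871a) (nat_lit 0) (p (nat_lit 0x8000080000000080788868a) (nat_lit 0) (p (nat_lit 0x8000080000000078706860a) (nat_lit 0) (p (nat_lit 0x10806878582) (nat_lit 0) (p (nat_lit 0x8786070502) (nat_lit 0) (p (nat_lit 0x10705850482) (nat_lit 0) (p (nat_lit 0x8685048402) (nat_lit 0) (p (nat_lit 0x160004) (nat_lit 0) (p (nat_lit 0x60592) (nat_lit 0) (p (nat_lit 0x48512) (nat_lit 0) (p (nat_lit 0x50392) (nat_lit 0) (p (nat_lit 0x38312) (nat_lit 0) (p (nat_lit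 0x40212) (nat_lit 0) (p (nat_lit 0x28192) (nat_lit 0) (p (nat_lit 0x30092) (nat_lit 0) (p (nat_lit 0x18012) (nat_lit 0) pn)))))))))))))))))))))))) :=
  Cl.node (nat_lit 0xc9) (nat_lit 2) (by decide +kernel) (ClAll.succ (ClAll.succ ClAll.zero s26) n12)

def n22 : Cl (O (nat_lit 6)) (R (nat_lit 10449))
    (p (nat_lit 0xc1) (nat_lit 1) (p (nat_lit 0x119) (nat_lit 1) (p (nat_lit 0xd1) (nat_lit 0) (p (nat_lit 0x81) (nat_lit 0) (p (nat_lit 0x41) (nat_lit 1) (p (nat_lit 0x10a0b098a889a) (nat_lit 0) (p (nat_lit 0x898a890a081a) (nat_lit 0) (p (nat_lit 0x1090a0888079a) (nat_lit 0) (p (nat_lit 0x88898807871a) (nat_lit 0) (p (nat_lit 0x8000080000000080788868a) (nat_lit 0) (p (nat_lit 0x8000080000000078706860a) (nat_lit 0) (p (nat_lit 0x10806878582) (nat_lit 0) (p (nat_lit 0x8786070502) (nat_lit 0) (p (nat_lit 0x10705850482) (nat_lit 0) (p (nat_lit 0x8685048402) (nat_lit 0) (p (nat_lit 0x160004) (nat_lit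 0) (p (nat_lit 0x60592) (nat_lit 0) (p (nat_lit 0x48512) (nat_lit 0) (p (nat_lit 0x50392) (nat_lit 0) (p (nat_lit 0x38312) (nat_lit 0) (p (nat_lit 0x40212) (nat_lit 0) (p (nat_lit 0x28192) (nat_lit 0) (p (nat_lit 0x30092) (nat_lit 0) (p (nat_lit 0x18012) (nat_lit 0) pn)))))))))))))))))))))))) :=
  Cl.node (nat_lit 0x101) (nat_lit 2) (by decide +kernel) (ClAll.succ (ClAll.succ ClAll.zero n13) n14)

def n23 : Cl (O (nat_lit 6)) (R (nat_lit 10449))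
    (p (nat_lit 0xc9) (nat_lit 0) (p (nat_lit 0x119) (nat_lit 1) (p (nat_lit 0xc1) (nat_lit 0) (p (nat_lit 0x81) (nat_lit 1) (p (nat_lit 0x41) (nat_lit 1) (p (nat_lit 0x10a0b098a889a) (nat_lit 0) (p (nat_lit 0x898a890a081a) (nat_lit 0) (p (nat_lit 0x1090a0888079a) (nat_lit 0) (p (nat_lit 0x88898807871a) (nat_lit 0) (p (nat_lit 0x8000080000000080788868a) (nat_lit 0) (p (nat_lit 0x8000080000000078706860a) (nat_lit 0) (p (nat_lit 0x10806878582) (nat_lit 0) (p (nat_lit 0x8786070502) (nat_lit 0) (p (nat_lit 0x10705850482) (nat_lit 0) (p (nat_lit 0x8685048402) (nat_lit 0) (p (nat_lit 0x160004) (nat_lit 0) (p (nat_lit 0x60592) (nat_lit 0) (p (nat_lit 0x48512) (nat_lit 0) (p (nat_lit 0x50392) (nat_lit 0) (p (nat_lit 0x38312) (nat_lit 0) (p (nat_lit 0x40212) (nat_lit 0) (p (nat_lit 0x28192) (nat_lit 0) (p (nat_lit 0x30092) (nat_lit 0) (p (nat_lit 0x18012) (nat_lit 0) pn)))))))))))))))))))))))) :=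
  Cl.node (nat_lit 0xd1) (nat_lit 2) (by decide +kernel) (ClAll.succ (ClAll.succ ClAll.zero s40) n15)

def n24 : Cl (O (nat_lit 6)) (R (nat_lit 10449))
    (p (nat_lit 0xc9) (nat_lit 1) (p (nat_lit 0x119) (nat_lit 1) (p (nat_lit 0xc1) (nat_lit 0) (p (nat_lit 0x81) (nat_lit 1) (p (nat_lit 0x41) (nat_lit 1) (p (nat_lit 0x10a0b098a889a) (nat_lit 0) (p (nat_lit 0x898a890a081a) (nat_lit 0) (p (nat_lit 0x1090a0888079a) (nat_lit 0) (p (nat_lit 0x88898807871a) (nat_lit 0) (p (nat_lit 0x8000080000000080788868a) (nat_lit 0) (p (nat_lit 0x8000080000000078706860a) (nat_lit 0) (p (nat_lit 0x10806878582) (nat_lit 0) (p (nat_lit 0x8786070502) (nat_lit 0) (p (nat_lit 0x10705850482) (nat_lit 0) (p (nat_lit 0x8685048402) (nat_lit 0) (p (nat_lit 0x160004) (nat_lit 0) (p (nat_lit 0x60592) (nat_lit 0) (p (nat_lit 0x48512) (nat_lit 0) (p (nat_lit 0x50392) (nat_lit 0) (p (nat_lit 0x38312) (nat_lit 0) (p (nat_lit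 0x40212) (nat_lit 0) (p (nat_lit 0x28192) (nat_lit 0) (p (nat_lit 0x30092) (nat_lit 0) (p (nat_lit 0x18012) (nat_lit 0) pn)))))))))))))))))))))))) :=
  Cl.node (nat_lit 0x109) (nat_lit 2) (by decide +kernel) (ClAll.succ (ClAll.succ ClAll.zero s45) s46)

def n25 : Cl (O (nat_lit 6)) (R (nat_lit 10449))
    (p (nat_lit 0x119) (nat_lit 0) (p (nat_lit 0xd1) (nat_lit 0) (p (nat_lit 0x89) (nat_lit 0) (p (nat_lit 0x41) (nat_lit 0) (p (nat_lit 0x10a0b098a889a) (nat_lit 0) (p (nat_lit 0x898a890a081a) (nat_lit 0) (p (nat_lit 0x1090a0888079a) (nat_lit 0) (p (nat_lit 0x88898807871a) (nat_lit 0) (p (nat_lit 0x8000080000000080788868a) (nat_lit 0) (p (nat_lit 0x8000080000000078706860a) (nat_lit 0) (p (nat_lit 0x10806878582) (nat_lit 0) (p (nat_lit 0x8786070502) (nat_lit 0) (p (nat_lit 0x10705850482) (nat_lit 0) (p (nat_lit 0x8685048402) (nat_lit 0) (p (nat_lit 0x160004) (nat_lit 0) (p (nat_lit 0x60592)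 (nat_lit 0) (p (nat_lit 0x48512) (nat_lit 0) (p (nat_lit 0x50392) (nat_lit 0) (p (nat_lit 0x38312) (nat_lit 0) (p (nat_lit 0x40212) (nat_lit 0) (p (nat_lit 0x28192) (nat_lit 0) (p (nat_lit 0x30092) (nat_lit 0) (p (nat_lit 0x18012) (nat_lit 0) pn))))))))))))))))))))))) :=
  Cl.node (nat_lit 0x101) (nat_lit 2) (by decide +kernel) (ClAll.succ (ClAll.succ ClAll.zero s0) n16)

def n26 : Cl (O (nat_lit 6)) (R (nat_lit 10449))
    (p (nat_lit 0x119) (nat_lit 1) (p (nat_lit 0xd1) (nat_lit 0) (p (nat_lit 0x89) (nat_lit 0) (p (nat_lit 0x41) (nat_lit 0) (p (nat_lit 0x10a0b098a889a) (nat_lit 0) (p (nat_lit 0x898a890a081a) (nat_lit 0) (p (nat_lit 0x1090a0888079a) (nat_lit 0) (p (nat_lit 0x88898807871a) (nat_lit 0) (p (nat_lit 0x8000080000000080788868a) (nat_lit 0) (p (nat_lit 0x8000080000000078706860a) (nat_lit 0) (p (nat_lit 0x10806878582) (nat_lit 0) (p (nat_lit 0x8786070502) (nat_lit 0) (p (nat_lit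 0x10705850482) (nat_lit 0) (p (nat_lit 0x8685048402) (nat_lit 0) (p (nat_lit 0x160004) (nat_lit 0) (p (nat_lit 0x60592) (nat_lit 0) (p (nat_lit 0x48512) (nat_lit 0) (p (nat_lit 0x50392) (nat_lit 0) (p (nat_lit 0x38312) (nat_lit 0) (p (nat_lit 0x40212) (nat_lit 0) (p (nat_lit 0x28192) (nat_lit 0) (p (nat_lit 0x30092) (nat_lit 0) (p (nat_lit 0x18012) (nat_lit 0) pn))))))))))))))))))))))) :=
  Cl.node (nat_lit 0xc1) (nat_lit 2) (by decide +kernel) (ClAll.succ (ClAll.succ ClAll.zero n17) n18)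

def n27 : Cl (O (nat_lit 6)) (R (nat_lit 10449))
    (p (nat_lit 0x111) (nat_lit 0) (p (nat_lit 0xd1) (nat_lit 1) (p (nat_lit 0x89) (nat_lit 0) (p (nat_lit 0x41) (nat_lit 0) (p (nat_lit 0x10a0b098a889a) (nat_lit 0) (p (nat_lit 0x898a890a081a) (nat_lit 0) (p (nat_lit 0x1090a0888079a) (nat_lit 0) (p (nat_lit 0x88898807871a) (nat_lit 0) (p (nat_lit 0x8000080000000080788868a) (nat_lit 0) (p (nat_lit 0x8000080000000078706860a) (nat_lit 0) (p (nat_lit 0x10806878582) (nat_lit 0) (p (nat_lit 0x8786070502) (nat_lit 0) (p (nat_lit 0x10705850482) (nat_lit 0) (p (nat_lit 0x8685048402) (nat_lit 0) (p (nat_lit 0x160004) (nat_lit 0) (p (nat_lit 0x60592) (nat_lit 0) (p (nat_lit 0x48512) (nat_lit 0) (p (nat_lit 0x50392) (nat_lit 0) (p (nat_lit 0x38312) (nat_lit 0) (p (nat_lit 0x40212) (nat_lit 0) (p (nat_lit 0x28192) (nat_lit 0) (p (nat_lit 0x30092) (nat_lit 0) (p (nat_lit 0x18012) (nat_lit 0) pn)))))))))))))))))))))))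 :=
  Cl.node (nat_lit 0x101) (nat_lit 2) (by decide +kernel) (ClAll.succ (ClAll.succ ClAll.zero s12) n19)

def n28 : Cl (O (nat_lit 6)) (R (nat_lit 10449))
    (p (nat_lit 0x119) (nat_lit 0) (p (nat_lit 0xc9) (nat_lit 0) (p (nat_lit 0x89) (nat_lit 1) (p (nat_lit 0x41) (nat_lit 0) (p (nat_lit 0x10a0b098a889a) (nat_lit 0) (p (nat_lit 0x898a890a081a) (nat_lit 0) (p (nat_lit 0x1090a0888079a) (nat_lit 0) (p (nat_lit 0x88898807871a) (nat_lit 0) (p (nat_lit 0x8000080000000080788868a) (nat_lit 0) (p (nat_lit 0x8000080000000078706860a) (nat_lit 0) (p (nat_lit 0x10806878582) (nat_lit 0) (p (nat_lit 0x8786070502) (nat_lit 0) (p (nat_lit 0x10705850482) (nat_lit 0) (p (nat_lit 0x8685048402) (nat_lit 0) (p (nat_lit 0x160004) (nat_lit 0) (p (nat_lit 0x60592) (nat_lit 0) (p (nat_lit 0x48512) (nat_lit 0) (p (nat_lit 0x50392) (nat_lit 0) (p (nat_lit 0x38312) (nat_lit 0) (p (nat_lit 0x40212) (nat_lit 0) (p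 (nat_lit 0x28192) (nat_lit 0) (p (nat_lit 0x30092) (nat_lit 0) (p (nat_lit 0x18012) (nat_lit 0) pn))))))))))))))))))))))) :=
  Cl.node (nat_lit 0x101) (nat_lit 2) (by decide +kernel) (ClAll.succ (ClAll.succ ClAll.zero s18) s19)

def n29 : Cl (O (nat_lit 6)) (R (nat_lit 10449))
    (p (nat_lit 0x119) (nat_lit 1) (p (nat_lit 0xc9) (nat_lit 0) (p (nat_lit 0x89) (nat_lit 1) (p (nat_lit 0x41) (nat_lit 0) (p (nat_lit 0x10a0b098a889a) (nat_lit 0) (p (nat_lit 0x898a890a081a) (nat_lit 0) (p (nat_lit 0x1090a0888079a) (nat_lit 0) (p (nat_lit 0x88898807871a) (nat_lit 0) (p (nat_lit 0x8000080000000080788868a) (nat_lit 0) (p (nat_lit 0x8000080000000078706860a) (nat_lit 0) (p (nat_lit 0x10806878582) (nat_lit 0) (p (nat_lit 0x8786070502) (nat_lit 0) (p (nat_lit 0x10705850482) (nat_lit 0) (p (nat_lit 0x8685048402) (nat_lit 0) (p (nat_lit 0x160004) (nat_lit 0) (p (nat_lit 0x60592) (nat_lit 0) (p (nat_lit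 0x48512) (nat_lit 0) (p (nat_lit 0x50392) (nat_lit 0) (p (nat_lit 0x38312) (nat_lit 0) (p (nat_lit 0x40212) (nat_lit 0) (p (nat_lit 0x28192) (nat_lit 0) (p (nat_lit 0x30092) (nat_lit 0) (p (nat_lit 0x18012) (nat_lit 0) pn))))))))))))))))))))))) :=
  Cl.node (nat_lit 0xc1) (nat_lit 2) (by decide +kernel) (ClAll.succ (ClAll.succ ClAll.zero s20) s21)

def n30 : Cl (O (nat_lit 6)) (R (nat_lit 10449))
    (p (nat_lit 0x119) (nat_lit 0) (p (nat_lit 0xd1) (nat_lit 0) (p (nat_lit 0x81) (nat_lit 0) (p (nat_lit 0x41) (nat_lit 1) (p (nat_lit 0x10a0b098a889a) (nat_lit 0) (p (nat_lit 0x898a890a081a) (nat_lit 0) (p (nat_lit 0x1090a0888079a) (nat_lit 0) (p (nat_lit 0x88898807871a) (nat_lit 0) (p (nat_lit 0x8000080000000080788868a) (nat_lit 0) (p (nat_lit 0x8000080000000078706860a) (nat_lit 0) (p (nat_lit 0x10806878582) (nat_lit 0) (p (nat_lit 0x8786070502) (nat_lit 0) (p (nat_lit 0x10705850482) (nat_lit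 0) (p (nat_lit 0x8685048402) (nat_lit 0) (p (nat_lit 0x160004) (nat_lit 0) (p (nat_lit 0x60592) (nat_lit 0) (p (nat_lit 0x48512) (nat_lit 0) (p (nat_lit 0x50392) (nat_lit 0) (p (nat_lit 0x38312) (nat_lit 0) (p (nat_lit 0x40212) (nat_lit 0) (p (nat_lit 0x28192) (nat_lit 0) (p (nat_lit 0x30092) (nat_lit 0) (p (nat_lit 0x18012) (nat_lit 0) pn))))))))))))))))))))))) :=
  Cl.node (nat_lit 0x101) (nat_lit 2) (by decide +kernel) (ClAll.succ (ClAll.succ ClAll.zero s23) n20)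

def n31 : Cl (O (nat_lit 6)) (R (nat_lit 10449))
    (p (nat_lit 0x119) (nat_lit 1) (p (nat_lit 0xd1) (nat_lit 0) (p (nat_lit 0x81) (nat_lit 0) (p (nat_lit 0x41) (nat_lit 1) (p (nat_lit 0x10a0b098a889a) (nat_lit 0) (p (nat_lit 0x898a890a081a) (nat_lit 0) (p (nat_lit 0x1090a0888079a) (nat_lit 0) (p (nat_lit 0x88898807871a) (nat_lit 0) (p (nat_lit 0x8000080000000080788868a) (nat_lit 0) (p (nat_lit 0x8000080000000078706860a) (nat_lit 0) (p (nat_lit 0x10806878582) (nat_lit 0) (p (nat_lit 0x8786070502) (nat_lit 0) (p (nat_lit 0x10705850482) (nat_lit 0) (p (nat_lit 0x8685048402) (nat_lit 0) (p (nat_lit 0x160004) (nat_lit 0) (p (nat_lit 0x60592) (nat_lit 0) (p (nat_lit 0x48512) (nat_lit 0) (p (nat_lit 0x50392) (nat_lit 0) (p (nat_lit 0x38312) (nat_lit 0) (p (nat_lit 0x40212) (nat_lit 0) (p (nat_lit 0x28192) (nat_lit 0) (p (nat_lit 0x30092) (nat_lit 0) (p (nat_lit 0x18012) (nat_lit 0) pn)))))))))))))))))))))))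 :=
  Cl.node (nat_lit 0xc1) (nat_lit 2) (by decide +kernel) (ClAll.succ (ClAll.succ ClAll.zero n21) n22)

def n32 : Cl (O (nat_lit 6)) (R (nat_lit 10449))
    (p (nat_lit 0x111) (nat_lit 0) (p (nat_lit 0xd1) (nat_lit 1) (p (nat_lit 0x81) (nat_lit 0) (p (nat_lit 0x41) (nat_lit 1) (p (nat_lit 0x10a0b098a889a) (nat_lit 0) (p (nat_lit 0x898a890a081a) (nat_lit 0) (p (nat_lit 0x1090a0888079a) (nat_lit 0) (p (nat_lit 0x88898807871a) (nat_lit 0) (p (nat_lit 0x8000080000000080788868a) (nat_lit 0) (p (nat_lit 0x8000080000000078706860a) (nat_lit 0) (p (nat_lit 0x10806878582) (nat_lit 0) (p (nat_lit 0x8786070502) (nat_lit 0) (p (nat_lit 0x10705850482) (nat_lit 0) (p (nat_lit 0x8685048402) (nat_lit 0) (p (nat_lit 0x160004) (nat_lit 0) (p (nat_lit 0x60592) (nat_lit 0) (p (nat_lit 0x48512) (nat_lit 0) (p (nat_lit 0x50392) (nat_lit 0) (p (nat_lit 0x38312) (nat_lit 0) (p (nat_lit 0x40212) (nat_lit 0) (p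 (nat_lit 0x28192) (nat_lit 0) (p (nat_lit 0x30092) (nat_lit 0) (p (nat_lit 0x18012) (nat_lit 0) pn))))))))))))))))))))))) :=
  Cl.node (nat_lit 0x101) (nat_lit 2) (by decide +kernel) (ClAll.succ (ClAll.succ ClAll.zero s36) s37)

def n33 : Cl (O (nat_lit 6)) (R (nat_lit 10449))
    (p (nat_lit 0x119) (nat_lit 1) (p (nat_lit 0xc1) (nat_lit 0) (p (nat_lit 0x81) (nat_lit 1) (p (nat_lit 0x41) (nat_lit 1) (p (nat_lit 0x10a0b098a889a) (nat_lit 0) (p (nat_lit 0x898a890a081a) (nat_lit 0) (p (nat_lit 0x1090a0888079a) (nat_lit 0) (p (nat_lit 0x88898807871a) (nat_lit 0) (p (nat_lit 0x8000080000000080788868a) (nat_lit 0) (p (nat_lit 0x8000080000000078706860a) (nat_lit 0) (p (nat_lit 0x10806878582) (nat_lit 0) (p (nat_lit 0x8786070502) (nat_lit 0) (p (nat_lit 0x10705850482) (nat_lit 0) (p (nat_lit 0x8685048402) (nat_lit 0) (p (nat_lit 0x160004) (nat_lit 0) (p (nat_lit 0x60592) (nat_lit 0) (p (nat_lit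 0x48512) (nat_lit 0) (p (nat_lit 0x50392) (nat_lit 0) (p (nat_lit 0x38312) (nat_lit 0) (p (nat_lit 0x40212) (nat_lit 0) (p (nat_lit 0x28192) (nat_lit 0) (p (nat_lit 0x30092) (nat_lit 0) (p (nat_lit 0x18012) (nat_lit 0) pn))))))))))))))))))))))) :=
  Cl.node (nat_lit 0xc9) (nat_lit 2) (by decide +kernel) (ClAll.succ (ClAll.succ ClAll.zero n23) n24)

def n34 : Cl (O (nat_lit 6)) (R (nat_lit 10449))
    (p (nat_lit 0xd1) (nat_lit 0) (p (nat_lit 0x89) (nat_lit 0) (p (nat_lit 0x41) (nat_lit 0) (p (nat_lit 0x10a0b098a889a) (nat_lit 0) (p (nat_lit 0x898a890a081a) (nat_lit 0) (p (nat_lit 0x1090a0888079a) (nat_lit 0) (p (nat_lit 0x88898807871a) (nat_lit 0) (p (nat_lit 0x8000080000000080788868a) (nat_lit 0) (p (nat_lit 0x8000080000000078706860a) (nat_lit 0) (p (nat_lit 0x10806878582) (nat_lit 0) (p (nat_lit 0x8786070502) (nat_lit 0) (p (nat_lit 0x10705850482) (nat_lit 0) (p (nat_lit 0x8685048402)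 (nat_lit 0) (p (nat_lit 0x160004) (nat_lit 0) (p (nat_lit 0x60592) (nat_lit 0) (p (nat_lit 0x48512) (nat_lit 0) (p (nat_lit 0x50392) (nat_lit 0) (p (nat_lit 0x38312) (nat_lit 0) (p (nat_lit 0x40212) (nat_lit 0) (p (nat_lit 0x28192) (nat_lit 0) (p (nat_lit 0x30092) (nat_lit 0) (p (nat_lit 0x18012) (nat_lit 0) pn)))))))))))))))))))))) :=
  Cl.node (nat_lit 0x119) (nat_lit 2) (by decide +kernel) (ClAll.succ (ClAll.succ ClAll.zero n25) n26)

def n35 : Cl (O (nat_lit 6)) (R (nat_lit 10449))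
    (p (nat_lit 0xd1) (nat_lit 1) (p (nat_lit 0x89) (nat_lit 0) (p (nat_lit 0x41) (nat_lit 0) (p (nat_lit 0x10a0b098a889a) (nat_lit 0) (p (nat_lit 0x898a890a081a) (nat_lit 0) (p (nat_lit 0x1090a0888079a) (nat_lit 0) (p (nat_lit 0x88898807871a) (nat_lit 0) (p (nat_lit 0x8000080000000080788868a) (nat_lit 0) (p (nat_lit 0x8000080000000078706860a) (nat_lit 0) (p (nat_lit 0x10806878582) (nat_lit 0) (p (nat_lit 0x8786070502) (nat_lit 0) (p (nat_lit 0x10705850482) (nat_lit 0) (p (nat_lit 0x8685048402) (nat_lit 0) (p (nat_lit 0x160004) (nat_lit 0) (p (nat_lit 0x60592) (nat_lit 0) (p (nat_lit 0x48512) (nat_lit 0) (p (nat_lit 0x50392) (nat_lit 0) (p (nat_lit 0x38312) (nat_lit 0) (p (nat_lit 0x40212) (nat_lit 0) (p (nat_lit 0x28192) (nat_lit 0) (p (nat_lit 0x30092) (nat_lit 0) (p (nat_lit 0x18012) (nat_lit 0) pn)))))))))))))))))))))) :=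
  Cl.node (nat_lit 0x111) (nat_lit 2) (by decide +kernel) (ClAll.succ (ClAll.succ ClAll.zero n27) s17)

def n36 : Cl (O (nat_lit 6)) (R (nat_lit 10449))
    (p (nat_lit 0xc9) (nat_lit 0) (p (nat_lit 0x89) (nat_lit 1) (p (nat_lit 0x41) (nat_lit 0) (p (nat_lit 0x10a0b098a889a) (nat_lit 0) (p (nat_lit 0x898a890a081a) (nat_lit 0) (p (nat_lit 0x1090a0888079a) (nat_lit 0) (p (nat_lit 0x88898807871a) (nat_lit 0) (p (nat_lit 0x8000080000000080788868a) (nat_lit 0) (p (nat_lit 0x8000080000000078706860a) (nat_lit 0) (p (nat_lit 0x10806878582) (nat_lit 0) (p (nat_lit 0x8786070502) (nat_lit 0) (p (nat_lit 0x10705850482) (nat_lit 0) (p (nat_lit 0x8685048402) (nat_lit 0) (p (nat_lit 0x160004) (nat_lit 0) (p (nat_lit 0x60592) (nat_lit 0) (p (nat_lit 0x48512) (nat_lit 0) (p (nat_lit 0x50392) (nat_lit 0) (p (nat_lit 0x38312) (nat_lit 0) (p (nat_lit 0x40212) (nat_lit 0) (p (nat_lit 0x28192) (nat_lit 0) (p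 (nat_lit 0x30092) (nat_lit 0) (p (nat_lit 0x18012) (nat_lit 0) pn)))))))))))))))))))))) :=
  Cl.node (nat_lit 0x119) (nat_lit 2) (by decide +kernel) (ClAll.succ (ClAll.succ ClAll.zero n28) n29)

def n37 : Cl (O (nat_lit 6)) (R (nat_lit 10449))
    (p (nat_lit 0xd1) (nat_lit 0) (p (nat_lit 0x81) (nat_lit 0) (p (nat_lit 0x41) (nat_lit 1) (p (nat_lit 0x10a0b098a889a) (nat_lit 0) (p (nat_lit 0x898a890a081a) (nat_lit 0) (p (nat_lit 0x1090a0888079a) (nat_lit 0) (p (nat_lit 0x88898807871a) (nat_lit 0) (p (nat_lit 0x8000080000000080788868a) (nat_lit 0) (p (nat_lit 0x8000080000000078706860a) (nat_lit 0) (p (nat_lit 0x10806878582) (nat_lit 0) (p (nat_lit 0x8786070502) (nat_lit 0) (p (nat_lit 0x10705850482) (nat_lit 0) (p (nat_lit 0x8685048402) (nat_lit 0) (p (nat_lit 0x160004) (nat_lit 0) (p (nat_lit 0x60592) (nat_lit 0) (p (nat_lit 0x48512) (nat_lit 0) (p (nat_lit 0x50392) (nat_lit 0) (p (nat_lit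 0x38312) (nat_lit 0) (p (nat_lit 0x40212) (nat_lit 0) (p (nat_lit 0x28192) (nat_lit 0) (p (nat_lit 0x30092) (nat_lit 0) (p (nat_lit 0x18012) (nat_lit 0) pn)))))))))))))))))))))) :=
  Cl.node (nat_lit 0x119) (nat_lit 2) (by decide +kernel) (ClAll.succ (ClAll.succ ClAll.zero n30) n31)

def n38 : Cl (O (nat_lit 6)) (R (nat_lit 10449))
    (p (nat_lit 0xd1) (nat_lit 1) (p (nat_lit 0x81) (nat_lit 0) (p (nat_lit 0x41) (nat_lit 1) (p (nat_lit 0x10a0b098a889a) (nat_lit 0) (p (nat_lit 0x898a890a081a) (nat_lit 0) (p (nat_lit 0x1090a0888079a) (nat_lit 0) (p (nat_lit 0x88898807871a) (nat_lit 0) (p (nat_lit 0x8000080000000080788868a) (nat_lit 0) (p (nat_lit 0x8000080000000078706860a) (nat_lit 0) (p (nat_lit 0x10806878582) (nat_lit 0) (p (nat_lit 0x8786070502) (nat_lit 0) (p (nat_lit 0x10705850482) (nat_lit 0) (p (nat_lit 0x8685048402) (nat_lit 0) (p (nat_lit 0x160004) (nat_lit 0) (p (nat_lit 0x60592)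 (nat_lit 0) (p (nat_lit 0x48512) (nat_lit 0) (p (nat_lit 0x50392) (nat_lit 0) (p (nat_lit 0x38312) (nat_lit 0) (p (nat_lit 0x40212) (nat_lit 0) (p (nat_lit 0x28192) (nat_lit 0) (p (nat_lit 0x30092) (nat_lit 0) (p (nat_lit 0x18012) (nat_lit 0) pn)))))))))))))))))))))) :=
  Cl.node (nat_lit 0x111) (nat_lit 2) (by decide +kernel) (ClAll.succ (ClAll.succ ClAll.zero n32) s38)

def n39 : Cl (O (nat_lit 6)) (R (nat_lit 10449))
    (p (nat_lit 0xc1) (nat_lit 0) (p (nat_lit 0x81) (nat_lit 1) (p (nat_lit 0x41) (nat_lit 1) (p (nat_lit 0x10a0b098a889a) (nat_lit 0) (p (nat_lit 0x898a890a081a) (nat_lit 0) (p (nat_lit 0x1090a0888079a) (nat_lit 0) (p (nat_lit 0x88898807871a) (nat_lit 0) (p (nat_lit 0x8000080000000080788868a) (nat_lit 0) (p (nat_lit 0x8000080000000078706860a) (nat_lit 0) (p (nat_lit 0x10806878582) (nat_lit 0) (p (nat_lit 0x8786070502) (nat_lit 0) (p (nat_lit 0x10705850482) (nat_lit 0) (p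 (nat_lit 0x8685048402) (nat_lit 0) (p (nat_lit 0x160004) (nat_lit 0) (p (nat_lit 0x60592) (nat_lit 0) (p (nat_lit 0x48512) (nat_lit 0) (p (nat_lit 0x50392) (nat_lit 0) (p (nat_lit 0x38312) (nat_lit 0) (p (nat_lit 0x40212) (nat_lit 0) (p (nat_lit 0x28192) (nat_lit 0) (p (nat_lit 0x30092) (nat_lit 0) (p (nat_lit 0x18012) (nat_lit 0) pn)))))))))))))))))))))) :=
  Cl.node (nat_lit 0x119) (nat_lit 2) (by decide +kernel) (ClAll.succ (ClAll.succ ClAll.zero s39) n33)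

def n40 : Cl (O (nat_lit 6)) (R (nat_lit 10449))
    (p (nat_lit 0x89) (nat_lit 0) (p (nat_lit 0x41) (nat_lit 0) (p (nat_lit 0x10a0b098a889a) (nat_lit 0) (p (nat_lit 0x898a890a081a) (nat_lit 0) (p (nat_lit 0x1090a0888079a) (nat_lit 0) (p (nat_lit 0x88898807871a) (nat_lit 0) (p (nat_lit 0x8000080000000080788868a) (nat_lit 0) (p (nat_lit 0x8000080000000078706860a) (nat_lit 0) (p (nat_lit 0x10806878582) (nat_lit 0) (p (nat_lit 0x8786070502) (nat_lit 0) (p (nat_lit 0x10705850482) (nat_lit 0) (p (nat_lit 0x8685048402) (nat_lit 0) (p (nat_lit 0x160004) (nat_lit 0) (p (nat_lit 0x60592) (nat_lit 0) (p (nat_lit 0x48512) (nat_lit 0) (p (nat_lit 0x50392) (nat_lit 0) (p (nat_lit 0x38312) (nat_lit 0) (p (nat_lit 0x40212) (nat_lit 0) (p (nat_lit 0x28192) (nat_lit 0) (p (nat_lit 0x30092) (nat_lit 0) (p (nat_lit 0x18012) (nat_lit 0) pn))))))))))))))))))))) :=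
  Cl.node (nat_lit 0xd1) (nat_lit 2) (by decide +kernel) (ClAll.succ (ClAll.succ ClAll.zero n34) n35)

def n41 : Cl (O (nat_lit 6)) (R (nat_lit 10449))
    (p (nat_lit 0x89) (nat_lit 1) (p (nat_lit 0x41) (nat_lit 0) (p (nat_lit 0x10a0b098a889a) (nat_lit 0) (p (nat_lit 0x898a890a081a) (nat_lit 0) (p (nat_lit 0x1090a0888079a) (nat_lit 0) (p (nat_lit 0x88898807871a) (nat_lit 0) (p (nat_lit 0x8000080000000080788868a) (nat_lit 0) (p (nat_lit 0x8000080000000078706860a) (nat_lit 0) (p (nat_lit 0x10806878582) (nat_lit 0) (p (nat_lit 0x8786070502) (nat_lit 0) (p (nat_lit 0x10705850482) (nat_lit 0) (p (nat_lit 0x8685048402) (nat_lit 0) (p (nat_lit 0x160004) (nat_lit 0) (p (nat_lit 0x60592) (nat_lit 0) (p (nat_lit 0x48512) (nat_lit 0) (p (nat_lit 0x50392) (nat_lit 0) (p (nat_lit 0x38312) (nat_lit 0) (p (nat_lit 0x40212) (nat_lit 0) (p (nat_lit 0x28192) (nat_lit 0) (p (nat_lit 0x30092) (nat_lit 0)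 (p (nat_lit 0x18012) (nat_lit 0) pn))))))))))))))))))))) :=
  Cl.node (nat_lit 0xc9) (nat_lit 2) (by decide +kernel) (ClAll.succ (ClAll.succ ClAll.zero n36) s22)

def n42 : Cl (O (nat_lit 6)) (R (nat_lit 10449))
    (p (nat_lit 0x81) (nat_lit 0) (p (nat_lit 0x41) (nat_lit 1) (p (nat_lit 0x10a0b098a889a) (nat_lit 0) (p (nat_lit 0x898a890a081a) (nat_lit 0) (p (nat_lit 0x1090a0888079a) (nat_lit 0) (p (nat_lit 0x88898807871a) (nat_lit 0) (p (nat_lit 0x8000080000000080788868a) (nat_lit 0) (p (nat_lit 0x8000080000000078706860a) (nat_lit 0) (p (nat_lit 0x10806878582) (nat_lit 0) (p (nat_lit 0x8786070502) (nat_lit 0) (p (nat_lit 0x10705850482) (nat_lit 0) (p (nat_lit 0x8685048402) (nat_lit 0) (p (nat_lit 0x160004) (nat_lit 0) (p (nat_lit 0x60592) (nat_lit 0) (p (nat_lit 0x48512) (nat_lit 0) (p (nat_lit 0x50392) (nat_lit 0) (p (nat_lit 0x38312) (nat_lit 0) (p (nat_lit 0x40212) (nat_lit 0) (p (nat_lit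 0x28192) (nat_lit 0) (p (nat_lit 0x30092) (nat_lit 0) (p (nat_lit 0x18012) (nat_lit 0) pn))))))))))))))))))))) :=
  Cl.node (nat_lit 0xd1) (nat_lit 2) (by decide +kernel) (ClAll.succ (ClAll.succ ClAll.zero n37) n38)

def n43 : Cl (O (nat_lit 6)) (R (nat_lit 10449))
    (p (nat_lit 0x81) (nat_lit 1) (p (nat_lit 0x41) (nat_lit 1) (p (nat_lit 0x10a0b098a889a) (nat_lit 0) (p (nat_lit 0x898a890a081a) (nat_lit 0) (p (nat_lit 0x1090a0888079a) (nat_lit 0) (p (nat_lit 0x88898807871a) (nat_lit 0) (p (nat_lit 0x8000080000000080788868a) (nat_lit 0) (p (nat_lit 0x8000080000000078706860a) (nat_lit 0) (p (nat_lit 0x10806878582) (nat_lit 0) (p (nat_lit 0x8786070502) (nat_lit 0) (p (nat_lit 0x10705850482) (nat_lit 0) (p (nat_lit 0x8685048402) (nat_lit 0) (p (nat_lit 0x160004) (nat_lit 0) (p (nat_lit 0x60592) (nat_lit 0) (p (nat_lit 0x48512) (nat_lit 0) (p (nat_lit 0x50392) (nat_lit 0) (p (nat_lit 0x38312)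 (nat_lit 0) (p (nat_lit 0x40212) (nat_lit 0) (p (nat_lit 0x28192) (nat_lit 0) (p (nat_lit 0x30092) (nat_lit 0) (p (nat_lit 0x18012) (nat_lit 0) pn))))))))))))))))))))) :=
  Cl.node (nat_lit 0xc1) (nat_lit 2) (by decide +kernel) (ClAll.succ (ClAll.succ ClAll.zero n39) s47)

def n44 : Cl (O (nat_lit 6)) (R (nat_lit 10449))
    (p (nat_lit 0x41) (nat_lit 0) (p (nat_lit 0x10a0b098a889a) (nat_lit 0) (p (nat_lit 0x898a890a081a) (nat_lit 0) (p (nat_lit 0x1090a0888079a) (nat_lit 0) (p (nat_lit 0x88898807871a) (nat_lit 0) (p (nat_lit 0x8000080000000080788868a) (nat_lit 0) (p (nat_lit 0x8000080000000078706860a) (nat_lit 0) (p (nat_lit 0x10806878582) (nat_lit 0) (p (nat_lit 0x8786070502) (nat_lit 0) (p (nat_lit 0x10705850482) (nat_lit 0) (p (nat_lit 0x8685048402) (nat_lit 0) (p (nat_lit 0x160004) (nat_lit 0) (p (nat_lit 0x60592) (nat_lit 0) (p (nat_lit 0x48512) (nat_lit 0) (p (nat_lit 0x50392) (nat_lit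 0) (p (nat_lit 0x38312) (nat_lit 0) (p (nat_lit 0x40212) (nat_lit 0) (p (nat_lit 0x28192) (nat_lit 0) (p (nat_lit 0x30092) (nat_lit 0) (p (nat_lit 0x18012) (nat_lit 0) pn)))))))))))))))))))) :=
  Cl.node (nat_lit 0x89) (nat_lit 2) (by decide +kernel) (ClAll.succ (ClAll.succ ClAll.zero n40) n41)

def n45 : Cl (O (nat_lit 6)) (R (nat_lit 10449))
    (p (nat_lit 0x41) (nat_lit 1) (p (nat_lit 0x10a0b098a889a) (nat_lit 0) (p (nat_lit 0x898a890a081a) (nat_lit 0) (p (nat_lit 0x1090a0888079a) (nat_lit 0) (p (nat_lit 0x88898807871a) (nat_lit 0) (p (nat_lit 0x8000080000000080788868a) (nat_lit 0) (p (nat_lit 0x8000080000000078706860a) (nat_lit 0) (p (nat_lit 0x10806878582) (nat_lit 0) (p (nat_lit 0x8786070502) (nat_lit 0) (p (nat_lit 0x10705850482) (nat_lit 0) (p (nat_lit 0x8685048402) (nat_lit 0) (p (nat_lit 0x160004) (nat_lit 0) (p (nat_lit 0x60592) (nat_lit 0) (p (nat_lit 0x48512) (nat_lit 0) (p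 (nat_lit 0x50392) (nat_lit 0) (p (nat_lit 0x38312) (nat_lit 0) (p (nat_lit 0x40212) (nat_lit 0) (p (nat_lit 0x28192) (nat_lit 0) (p (nat_lit 0x30092) (nat_lit 0) (p (nat_lit 0x18012) (nat_lit 0) pn)))))))))))))))))))) :=
  Cl.node (nat_lit 0x81) (nat_lit 2) (by decide +kernel) (ClAll.succ (ClAll.succ ClAll.zero n42) n43)

def n46 : Cl (O (nat_lit 6)) (R (nat_lit 10449))
    (p (nat_lit 0x10a0b098a889a) (nat_lit 0) (p (nat_lit 0x898a890a081a) (nat_lit 0) (p (nat_lit 0x1090a0888079a) (nat_lit 0) (p (nat_lit 0x88898807871a) (nat_lit 0) (p (nat_lit 0x8000080000000080788868a) (nat_lit 0) (p (nat_lit 0x8000080000000078706860a) (nat_lit 0) (p (nat_lit 0x10806878582) (nat_lit 0) (p (nat_lit 0x8786070502) (nat_lit 0) (p (nat_lit 0x10705850482) (nat_lit 0) (p (nat_lit 0x8685048402) (nat_lit 0) (p (nat_lit 0x160004) (nat_lit 0) (p (nat_lit 0x60592) (nat_lit 0) (p (nat_lit 0x48512) (nat_lit 0) (p (nat_lit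 0x50392) (nat_lit 0) (p (nat_lit 0x38312) (nat_lit 0) (p (nat_lit 0x40212) (nat_lit 0) (p (nat_lit 0x28192) (nat_lit 0) (p (nat_lit 0x30092) (nat_lit 0) (p (nat_lit 0x18012) (nat_lit 0) pn))))))))))))))))))) :=
  Cl.node (nat_lit 0x41) (nat_lit 2) (by decide +kernel) (ClAll.succ (ClAll.succ ClAll.zero n44) n45)

def n47 : Cl (O (nat_lit 6)) (R (nat_lit 10449))
    (p (nat_lit 0x898a890a081a) (nat_lit 0) (p (nat_lit 0x1090a0888079a) (nat_lit 0) (p (nat_lit 0x88898807871a) (nat_lit 0) (p (nat_lit 0x8000080000000080788868a) (nat_lit 0) (p (nat_lit 0x8000080000000078706860a) (nat_lit 0) (p (nat_lit 0x10806878582) (nat_lit 0) (p (nat_lit 0x8786070502) (nat_lit 0) (p (nat_lit 0x10705850482) (nat_lit 0) (p (nat_lit 0x8685048402) (nat_lit 0) (p (nat_lit 0x160004) (nat_lit 0) (p (nat_lit 0x60592) (nat_lit 0) (p (nat_lit 0x48512) (nat_lit 0) (p (nat_lit 0x50392) (nat_lit 0) (p (nat_lit 0x38312) (nat_lit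 0) (p (nat_lit 0x40212) (nat_lit 0) (p (nat_lit 0x28192) (nat_lit 0) (p (nat_lit 0x30092) (nat_lit 0) (p (nat_lit 0x18012) (nat_lit 0) pn)))))))))))))))))) :=
  Cl.node (nat_lit 0x10a0b098a889a) (nat_lit 1) (by decide +kernel) (ClAll.succ ClAll.zero n46)

def n48 : Cl (O (nat_lit 6)) (R (nat_lit 10449))
    (p (nat_lit 0x1090a0888079a) (nat_lit 0) (p (nat_lit 0x88898807871a) (nat_lit 0) (p (nat_lit 0x8000080000000080788868a) (nat_lit 0) (p (nat_lit 0x8000080000000078706860a) (nat_lit 0) (p (nat_lit 0x10806878582) (nat_lit 0) (p (nat_lit 0x8786070502) (nat_lit 0) (p (nat_lit 0x10705850482) (nat_lit 0) (p (nat_lit 0x8685048402) (nat_lit 0) (p (nat_lit 0x160004) (nat_lit 0) (p (nat_lit 0x60592) (nat_lit 0) (p (nat_lit 0x48512) (nat_lit 0) (p (nat_lit 0x50392) (nat_lit 0) (p (nat_lit 0x38312) (nat_lit 0) (p (nat_lit 0x40212) (nat_lit 0) (p (nat_lit 0x28192) (nat_lit 0) (p (nat_lit 0x30092)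 (nat_lit 0) (p (nat_lit 0x18012) (nat_lit 0) pn))))))))))))))))) :=
  Cl.node (nat_lit 0x898a890a081a) (nat_lit 1) (by decide +kernel) (ClAll.succ ClAll.zero n47)

def n49 : Cl (O (nat_lit 6)) (R (nat_lit 10449))
    (p (nat_lit 0x88898807871a) (nat_lit 0) (p (nat_lit 0x8000080000000080788868a) (nat_lit 0) (p (nat_lit 0x8000080000000078706860a) (nat_lit 0) (p (nat_lit 0x10806878582) (nat_lit 0) (p (nat_lit 0x8786070502) (nat_lit 0) (p (nat_lit 0x10705850482) (nat_lit 0) (p (nat_lit 0x8685048402) (nat_lit 0) (p (nat_lit 0x160004) (nat_lit 0) (p (nat_lit 0x60592) (nat_lit 0) (p (nat_lit 0x48512) (nat_lit 0) (p (nat_lit 0x50392) (nat_lit 0) (p (nat_lit 0x38312) (nat_lit 0) (p (nat_lit 0x40212) (nat_lit 0) (p (nat_lit 0x28192) (nat_lit 0) (p (nat_lit 0x30092) (nat_lit 0) (p (nat_lit 0x18012) (nat_lit 0) pn)))))))))))))))) :=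
  Cl.node (nat_lit 0x1090a0888079a) (nat_lit 1) (by decide +kernel) (ClAll.succ ClAll.zero n48)

def n50 : Cl (O (nat_lit 6)) (R (nat_lit 10449))
    (p (nat_lit 0x8000080000000080788868a) (nat_lit 0) (p (nat_lit 0x8000080000000078706860a) (nat_lit 0) (p (nat_lit 0x10806878582) (nat_lit 0) (p (nat_lit 0x8786070502) (nat_lit 0) (p (nat_lit 0x10705850482) (nat_lit 0) (p (nat_lit 0x8685048402) (nat_lit 0) (p (nat_lit 0x160004) (nat_lit 0) (p (nat_lit 0x60592) (nat_lit 0) (p (nat_lit 0x48512) (nat_lit 0) (p (nat_lit 0x50392) (nat_lit 0) (p (nat_lit 0x38312) (nat_lit 0) (p (nat_lit 0x40212) (nat_lit 0) (p (nat_lit 0x28192) (nat_lit 0) (p (nat_lit 0x30092) (nat_lit 0) (p (nat_lit 0x18012) (nat_lit 0) pn))))))))))))))) :=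
  Cl.node (nat_lit 0x88898807871a) (nat_lit 1) (by decide +kernel) (ClAll.succ ClAll.zero n49)

def n51 : Cl (O (nat_lit 6)) (R (nat_lit 10449))
    (p (nat_lit 0x8000080000000078706860a) (nat_lit 0) (p (nat_lit 0x10806878582) (nat_lit 0) (p (nat_lit 0x8786070502) (nat_lit 0) (p (nat_lit 0x10705850482) (nat_lit 0) (p (nat_lit 0x8685048402) (nat_lit 0) (p (nat_lit 0x160004) (nat_lit 0) (p (nat_lit 0x60592) (nat_lit 0) (p (nat_lit 0x48512) (nat_lit 0) (p (nat_lit 0x50392) (nat_lit 0) (p (nat_lit 0x38312) (nat_lit 0) (p (nat_lit 0x40212) (nat_lit 0) (p (nat_lit 0x28192) (nat_lit 0) (p (nat_lit 0x30092) (nat_lit 0) (p (nat_lit 0x18012) (nat_lit 0) pn)))))))))))))) :=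
  Cl.node (nat_lit 0x8000080000000080788868a) (nat_lit 1) (by decide +kernel) (ClAll.succ ClAll.zero n50)

def n52 : Cl (O (nat_lit 6)) (R (nat_lit 10449))
    (p (nat_lit 0x10806878582) (nat_lit 0) (p (nat_lit 0x8786070502) (nat_lit 0) (p (nat_lit 0x10705850482) (nat_lit 0) (p (nat_lit 0x8685048402) (nat_lit 0) (p (nat_lit 0x160004) (nat_lit 0) (p (nat_lit 0x60592) (nat_lit 0) (p (nat_lit 0x48512) (nat_lit 0) (p (nat_lit 0x50392) (nat_lit 0) (p (nat_lit 0x38312) (nat_lit 0) (p (nat_lit 0x40212) (nat_lit 0) (p (nat_lit 0x28192) (nat_lit 0) (p (nat_lit 0x30092) (nat_lit 0) (p (nat_lit 0x18012) (nat_lit 0) pn))))))))))))) :=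
  Cl.node (nat_lit 0x8000080000000078706860a) (nat_lit 1) (by decide +kernel) (ClAll.succ ClAll.zero n51)

def n53 : Cl (O (nat_lit 6)) (R (nat_lit 10449))
    (p (nat_lit 0x8786070502) (nat_lit 0) (p (nat_lit 0x10705850482) (nat_lit 0) (p (nat_lit 0x8685048402) (nat_lit 0) (p (nat_lit 0x160004) (nat_lit 0) (p (nat_lit 0x60592) (nat_lit 0) (p (nat_lit 0x48512) (nat_lit 0) (p (nat_lit 0x50392) (nat_lit 0) (p (nat_lit 0x38312) (nat_lit 0) (p (nat_lit 0x40212) (nat_lit 0) (p (nat_lit 0x28192) (nat_lit 0) (p (nat_lit 0x30092) (nat_lit 0) (p (nat_lit 0x18012) (nat_lit 0) pn)))))))))))) :=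
  Cl.node (nat_lit 0x10806878582) (nat_lit 1) (by decide +kernel) (ClAll.succ ClAll.zero n52)

def n54 : Cl (O (nat_lit 6)) (R (nat_lit 10449))
    (p (nat_lit 0x10705850482) (nat_lit 0) (p (nat_lit 0x8685048402) (nat_lit 0) (p (nat_lit 0x160004) (nat_lit 0) (p (nat_lit 0x60592) (nat_lit 0) (p (nat_lit 0x48512) (nat_lit 0) (p (nat_lit 0x50392) (nat_lit 0) (p (nat_lit 0x38312) (nat_lit 0) (p (nat_lit 0x40212) (nat_lit 0) (p (nat_lit 0x28192) (nat_lit 0) (p (nat_lit 0x30092) (nat_lit 0) (p (nat_lit 0x18012) (nat_lit 0) pn))))))))))) :=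
  Cl.node (nat_lit 0x8786070502) (nat_lit 1) (by decide +kernel) (ClAll.succ ClAll.zero n53)

def n55 : Cl (O (nat_lit 6)) (R (nat_lit 10449))
    (p (nat_lit 0x8685048402) (nat_lit 0) (p (nat_lit 0x160004) (nat_lit 0) (p (nat_lit 0x60592) (nat_lit 0) (p (nat_lit 0x48512) (nat_lit 0) (p (nat_lit 0x50392) (nat_lit 0) (p (nat_lit 0x38312) (nat_lit 0) (p (nat_lit 0x40212) (nat_lit 0) (p (nat_lit 0x28192) (nat_lit 0) (p (nat_lit 0x30092) (nat_lit 0) (p (nat_lit 0x18012) (nat_lit 0) pn)))))))))) :=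
  Cl.node (nat_lit 0x10705850482) (nat_lit 1) (by decide +kernel) (ClAll.succ ClAll.zero n54)

def n56 : Cl (O (nat_lit 6)) (R (nat_lit 10449))
    (p (nat_lit 0x160004) (nat_lit 0) (p (nat_lit 0x60592) (nat_lit 0) (p (nat_lit 0x48512) (nat_lit 0) (p (nat_lit 0x50392) (nat_lit 0) (p (nat_lit 0x38312) (nat_lit 0) (p (nat_lit 0x40212) (nat_lit 0) (p (nat_lit 0x28192) (nat_lit 0) (p (nat_lit 0x30092) (nat_lit 0) (p (nat_lit 0x18012) (nat_lit 0) pn))))))))) :=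
  Cl.node (nat_lit 0x8685048402) (nat_lit 1) (by decide +kernel) (ClAll.succ ClAll.zero n55)

def n57 : Cl (O (nat_lit 6)) (R (nat_lit 10449))
    (p (nat_lit 0x60592) (nat_lit 0) (p (nat_lit 0x48512) (nat_lit 0) (p (nat_lit 0x50392) (nat_lit 0) (p (nat_lit 0x38312) (nat_lit 0) (p (nat_lit 0x40212) (nat_lit 0) (p (nat_lit 0x28192) (nat_lit 0) (p (nat_lit 0x30092) (nat_lit 0) (p (nat_lit 0x18012) (nat_lit 0) pn)))))))) :=
  Cl.node (nat_lit 0x160004) (nat_lit 2) (by decide +kernel) (ClAll.succ (ClAll.succ ClAll.zero n56) s48)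

def n58 : Cl (O (nat_lit 6)) (R (nat_lit 10449))
    (p (nat_lit 0x48512) (nat_lit 0) (p (nat_lit 0x50392) (nat_lit 0) (p (nat_lit 0x38312) (nat_lit 0) (p (nat_lit 0x40212) (nat_lit 0) (p (nat_lit 0x28192) (nat_lit 0) (p (nat_lit 0x30092) (nat_lit 0) (p (nat_lit 0x18012) (nat_lit 0) pn))))))) :=
  Cl.node (nat_lit 0x60592) (nat_lit 1) (by decide +kernel) (ClAll.succ ClAll.zero n57)

def n59 : Cl (O (nat_lit 6)) (R (nat_lit 10449))
    (p (nat_lit 0x50392) (nat_lit 0) (p (nat_lit 0x38312) (nat_lit 0) (p (nat_lit 0x40212) (nat_lit 0) (p (nat_lit 0x28192) (nat_lit 0) (p (nat_lit 0x30092) (nat_lit 0) (p (nat_lit 0x18012) (nat_lit 0) pn)))))) :=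
  Cl.node (nat_lit 0x48512) (nat_lit 1) (by decide +kernel) (ClAll.succ ClAll.zero n58)

def n60 : Cl (O (nat_lit 6)) (R (nat_lit 10449))
    (p (nat_lit 0x38312) (nat_lit 0) (p (nat_lit 0x40212) (nat_lit 0) (p (nat_lit 0x28192) (nat_lit 0) (p (nat_lit 0x30092) (nat_lit 0) (p (nat_lit 0x18012) (nat_lit 0) pn))))) :=
  Cl.node (nat_lit 0x50392) (nat_lit 1) (by decide +kernel) (ClAll.succ ClAll.zero n59)

def n61 : Cl (O (nat_lit 6)) (R (nat_lit 10449))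
    (p (nat_lit 0x40212) (nat_lit 0) (p (nat_lit 0x28192) (nat_lit 0) (p (nat_lit 0x30092) (nat_lit 0) (p (nat_lit 0x18012) (nat_lit 0) pn)))) :=
  Cl.node (nat_lit 0x38312) (nat_lit 1) (by decide +kernel) (ClAll.succ ClAll.zero n60)

def n62 : Cl (O (nat_lit 6)) (R (nat_lit 10449))
    (p (nat_lit 0x28192) (nat_lit 0) (p (nat_lit 0x30092) (nat_lit 0) (p (nat_lit 0x18012) (nat_lit 0) pn))) :=
  Cl.node (nat_lit 0x40212) (nat_lit 1) (by decide +kernel) (ClAll.succ ClAll.zero n61)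

def n63 : Cl (O (nat_lit 6)) (R (nat_lit 10449))
    (p (nat_lit 0x30092) (nat_lit 0) (p (nat_lit 0x18012) (nat_lit 0) pn)) :=
  Cl.node (nat_lit 0x28192) (nat_lit 1) (by decide +kernel) (ClAll.succ ClAll.zero n62)

def n64 : Cl (O (nat_lit 6)) (R (nat_lit 10449))
    (p (nat_lit 0x18012) (nat_lit 0) pn) :=
  Cl.node (nat_lit 0x30092) (nat_lit 1) (by decide +kernel) (ClAll.succ ClAll.zero n63)

def n65 : Cl (O (nat_lit 6)) (R (nat_lit 10449))
    pn :=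
  Cl.node (nat_lit 0x18012) (nat_lit 1) (by decide +kernel) (ClAll.succ ClAll.zero n64)

theorem top : Cl (O (nat_lit 6)) (R (nat_lit 10449)) pn := n65

end Pool.Agent.Gen.F5.X123D2Cm6
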